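import Mathlib

set_option autoImplicit false
open MeasureTheory Set Metric Filter Topology

namespace Pool.Agent.H.MP_9e511b_an

variable {E : Type} [NormedAddCommGroup E] [NormedSpace ℝ E] [FiniteDimensional ℝ E]
  [MeasurableSpace E] [BorelSpace E]

lemma vit (μ : Measure E) [μ.IsAddHaarMeasure] (Ω : Set E) (hΩ : μ Ω ≠ ⊤)
    (H : E → ℝ) (hH : IntegrableOn H Ω μ) (H0 : ∀ x, 0 ≤ H x)
    (r : E → ℝ) (R : ℝ) (hr : ∀ x ∈ Ω, 0 < r x) (hR : ∀ x ∈ Ω, r x ≤ R)
    (hb : ∀ x ∈ Ω, ball x (r x) ⊆ Ω) (c : ℝ) (hc : 0 < c)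
    (hloc : ∀ x ∈ Ω, c * μ.real (ball x (r x)) ≤ ∫ z in ball x (r x), H z ∂μ) :
    c * μ.real Ω ≤ 4 ^ Module.finrank ℝ E * ∫ z in Ω, H z ∂μ := by
  obtain ⟨u, hu, hd, hcov⟩ := Vitali.exists_disjoint_subfamily_covering_enlargement_ball Ω
    (fun x => x) r R hR 4 (by norm_num)
  have hcount : u.Countable := hd.countable_of_isOpen (fun _ _ => isOpen_ball)
    (fun x hx => nonempty_ball.2 (hr x (hu hx)))
  obtain ⟨ν, hν⟩ : ∃ ν : Measure E, ν = μ.withDensity (fun x => ENNReal.ofReal (H x)) := ⟨_, rfl⟩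
  have hνs : ∀ s : Set E, MeasurableSet s → s ⊆ Ω → ν s = ENNReal.ofReal (∫ z in s, H z ∂μ) := by
    intro s hs hsΩ
    rw [hν, withDensity_apply _ hs, ofReal_integral_eq_lintegral_ofReal (hH.mono_set hsΩ)
      (Eventually.of_forall H0)]
  have h1 : Ω ⊆ ⋃ x ∈ u, ball x (4 * r x) := by
    intro a ha
    obtain ⟨b, hb, hab⟩ := hcov a ha
    exact mem_biUnion hb (hab (mem_ball_self (hr a ha)))
  have h2 : ∀ x ∈ u, ENNReal.ofReal c * μ (ball x (4 * r x)) ≤
      ENNReal.ofReal (4 ^ Module.finrank ℝ E) * ν (ball x (r x)) := by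
    intro x hx
    rw [Measure.addHaar_ball_mul_of_pos μ x (by norm_num : (0:ℝ) < 4), ← Measure.addHaar_ball_center μ x,
      mul_left_comm, hνs _ measurableSet_ball (hb x (hu hx))]
    gcongr
    have hfin : μ (ball x (r x)) ≠ ⊤ := measure_ball_lt_top.ne
    rw [← ENNReal.ofReal_toReal hfin, ← ENNReal.ofReal_mul hc.le]
    exact ENNReal.ofReal_le_ofReal (hloc x (hu hx))
  have hU : (⋃ x ∈ u, ball x (r x)) ⊆ Ω := iUnion₂_subset fun x hx => hb x (hu hx)
  have hUm : MeasurableSet (⋃ x ∈ u, ball x (r x)) :=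
    MeasurableSet.biUnion hcount fun _ _ => measurableSet_ball
  have h3 : ENNReal.ofReal c * μ Ω ≤
      ENNReal.ofReal (4 ^ Module.finrank ℝ E) * ν (⋃ x ∈ u, ball x (r x)) := by
    rw [measure_biUnion hcount hd (fun _ _ => measurableSet_ball), ← ENNReal.tsum_mul_left]
    calc ENNReal.ofReal c * μ Ω ≤ ENNReal.ofReal c * ∑' x : u, μ (ball (x : E) (4 * r x)) := by
          gcongr
          exact (measure_mono h1).trans (measure_biUnion_le μ hcount _)
      _ = ∑' x : u, ENNReal.ofReal c * μ (ball (x : E) (4 * r x)) := ENNReal.tsum_mul_left.symm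
      _ ≤ _ := ENNReal.tsum_le_tsum fun x => h2 x x.2
  rw [hνs _ hUm hU, ← ENNReal.ofReal_mul (by positivity), ← ENNReal.ofReal_toReal hΩ,
    ← ENNReal.ofReal_mul hc.le] at h3
  have h4 : ∫ z in ⋃ x ∈ u, ball x (r x), H z ∂μ ≤ ∫ z in Ω, H z ∂μ :=
    setIntegral_mono_set hH (Eventually.of_forall H0) (Eventually.of_forall hU)
  have h5 : 0 ≤ ∫ z in ⋃ x ∈ u, ball x (r x), H z ∂μ := integral_nonneg H0
  rw [ENNReal.ofReal_le_ofReal_iff (by positivity)] at h3
  calc c * μ.real Ω ≤ _ := h3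
    _ ≤ _ := by gcongr

omit [FiniteDimensional ℝ E] [MeasurableSpace E] [BorelSpace E] in
lemma seg (ψ : E → ℝ) (hψ : ContDiff ℝ 1 ψ) (y z : E) (hy : ψ y = 0) :
    |ψ z| ≤ ‖z - y‖ * ∫ t in Ioc (0:ℝ) 1, ‖fderiv ℝ ψ (y + t • (z - y))‖ := by
  have hc : Continuous (fderiv ℝ ψ) := hψ.continuous_fderiv (by norm_num)
  have hd : ∀ t : ℝ, HasDerivAt (fun t : ℝ => ψ (y + t • (z - y)))
      (fderiv ℝ ψ (y + t • (z - y)) (z - y)) t := by
    intro t
    have h1 : HasDerivAt (fun t : ℝ => y + t • (z - y)) (z - y) t := by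
      simpa using ((hasDerivAt_id t).smul_const (z - y)).const_add y
    exact ((hψ.differentiable (by norm_num)) _).hasFDerivAt.comp_hasDerivAt t h1
  have hc2 : Continuous fun t : ℝ => fderiv ℝ ψ (y + t • (z - y)) (z - y) := by fun_prop
  have h := intervalIntegral.integral_eq_sub_of_hasDerivAt (a := 0) (b := 1) (fun t _ => hd t)
    (hc2.intervalIntegrable _ _)
  simp only [one_smul, add_sub_cancel, zero_smul, add_zero, hy, sub_zero] at h
  rw [← h, ← intervalIntegral.integral_of_le zero_le_one, ← intervalIntegral.integral_const_mul]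
  refine (intervalIntegral.abs_integral_le_integral_abs zero_le_one).trans ?_
  refine intervalIntegral.integral_mono_on zero_le_one (hc2.abs.intervalIntegrable _ _)
    (Continuous.intervalIntegrable (by fun_prop) _ _) fun t _ => ?_
  rw [mul_comm]
  exact (fderiv ℝ ψ (y + t • (z - y))).le_opNorm (z - y)

lemma scal (μ : Measure E) [μ.IsAddHaarMeasure] (F : E → ℝ) (hF : Integrable F μ)
    (F0 : ∀ x, 0 ≤ F x) (y : E) (t : ℝ) (ht : 0 < t) (D B : Set E) (hD : MeasurableSet D)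
    (hB : MeasurableSet B) (hDB : ∀ z ∈ D, y + t • (z - y) ∈ B) :
    ∫ z in D, F (y + t • (z - y)) ∂μ ≤ (t ^ Module.finrank ℝ E)⁻¹ * ∫ z in B, F z ∂μ := by
  have key : ∀ K : E → ℝ, ∫ z, K (y + t • (z - y)) ∂μ = (t ^ Module.finrank ℝ E)⁻¹ * ∫ z, K z ∂μ := by
    intro K
    rw [integral_sub_right_eq_self (fun z => K (y + t • z)) y,
      Measure.integral_comp_smul μ (fun z => K (y + z)) t, integral_add_left_eq_self,
      abs_of_pos (by positivity), smul_eq_mul]
  have hint : ∀ K : E → ℝ, Integrable K μ → Integrable (fun z => K (y + t • (z - y))) μ := by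
    intro K hK
    exact ((hK.comp_add_left y).comp_smul ht.ne').comp_sub_right y
  rw [← integral_indicator hB, ← key, ← integral_indicator hD]
  refine integral_mono ((hint F hF).indicator hD) (hint _ (hF.indicator hB)) fun z => ?_
  by_cases hz : z ∈ D
  · simp [hz, hDB z hz]
  · simp only [indicator_of_notMem hz]
    exact indicator_nonneg (fun x _ => F0 x) _

lemma young (p a G : ℝ) (hp : 1 ≤ p) (ha : 0 < a) (hG : 0 ≤ G) : G ≤ a + a ^ (1 - p) * G ^ p := by
  rcases le_total G a with h | h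
  · have : 0 ≤ a ^ (1 - p) * G ^ p := by positivity
    linarith
  · have hG' : 0 < G := ha.trans_le h
    have h1 : G ^ (1 - p) ≤ a ^ (1 - p) := Real.rpow_le_rpow_of_nonpos ha h (by linarith)
    have h2 : G = G ^ (1 - p) * G ^ p := by rw [← Real.rpow_add hG']; simp
    have h3 : G ^ (1 - p) * G ^ p ≤ a ^ (1 - p) * G ^ p := by gcongr
    linarith

/-- the small ball estimate -/
lemma small (μ : Measure E) [μ.IsAddHaarMeasure] (p : ℝ) (hp1 : 1 ≤ p)
    (hp : (Module.finrank ℝ E : ℝ) < p)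
    (ψ : E → ℝ) (hψ : ContDiff ℝ 1 ψ) (hcs : HasCompactSupport ψ) (y w : E) (ρ : ℝ) (hρ : 0 < ρ)
    (hy : ψ y = 0) (hw : ‖w - y‖ ≤ ρ) (B : Set E) (hB : MeasurableSet B)
    (hDB : ∀ t ∈ Ioc (0:ℝ) 1, ∀ z ∈ ball w ρ, y + t • (z - y) ∈ B) (a : ℝ) (ha : 0 < a) :
    ∫ z in ball w ρ, |ψ z| ∂μ ≤ 2 * ρ * ((1 / (-((Module.finrank ℝ E : ℝ) / p) + 1)) *
      (a * μ.real (ball w ρ) + a ^ (1 - p) * ∫ z in B, ‖fderiv ℝ ψ z‖ ^ p ∂μ)) := by
  obtain ⟨d, hd⟩ : ∃ d, d = Module.finrank ℝ E := ⟨_, rfl⟩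
  rw [← hd] at hp ⊢
  have hp0 : 0 < p := by linarith
  have hc : Continuous (fderiv ℝ ψ) := hψ.continuous_fderiv (by norm_num)
  have hGc : Continuous fun z => ‖fderiv ℝ ψ z‖ ^ p := hc.norm.rpow_const fun _ => Or.inr hp0.le
  have hGs : HasCompactSupport fun z => ‖fderiv ℝ ψ z‖ ^ p :=
    (hcs.fderiv ℝ).comp_left (g := fun L => ‖L‖ ^ p) (by simp [hp0.ne'])
  have hGi : Integrable (fun z => ‖fderiv ℝ ψ z‖ ^ p) μ := hGc.integrable_of_hasCompactSupport hGs
  have hprod : Integrable (Function.uncurry fun (z : E) (t : ℝ) => ‖fderiv ℝ ψ (y + t • (z - y))‖)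
      ((μ.restrict (ball w ρ)).prod (volume.restrict (Ioc (0:ℝ) 1))) := by
    rw [Measure.prod_restrict]
    have : ContinuousOn (Function.uncurry fun (z : E) (t : ℝ) => ‖fderiv ℝ ψ (y + t • (z - y))‖)
        (closedBall w ρ ×ˢ Icc (0:ℝ) 1) := by
      refine Continuous.continuousOn ?_
      unfold Function.uncurry
      fun_prop
    exact (this.integrableOn_compact ((isCompact_closedBall _ _).prod isCompact_Icc)).mono_set
      (prod_mono ball_subset_closedBall Ioc_subset_Icc_self)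
  obtain ⟨K, hK⟩ : ∃ K, K = a * μ.real (ball w ρ) + a ^ (1 - p) * ∫ z in B, ‖fderiv ℝ ψ z‖ ^ p ∂μ :=
    ⟨_, rfl⟩
  rw [← hK]
  have hdp : -1 < -((d : ℝ) / p) := by
    have : (d : ℝ) / p < 1 := (div_lt_one hp0).2 hp
    linarith
  have h1 : ∀ t ∈ Ioc (0:ℝ) 1, ∫ z in ball w ρ, ‖fderiv ℝ ψ (y + t • (z - y))‖ ∂μ ≤
      t ^ (-((d : ℝ) / p)) * K := by
    intro t ht
    have ht0 := ht.1
    have ha' : 0 < a * t ^ (-((d : ℝ) / p)) := by positivity
    have i1 : IntegrableOn (fun z => ‖fderiv ℝ ψ (y + t • (z - y))‖ ^ p) (ball w ρ) μ :=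
      (((hGi.comp_add_left y).comp_smul ht0.ne').comp_sub_right y).integrableOn
    have i0 : IntegrableOn (fun z => ‖fderiv ℝ ψ (y + t • (z - y))‖) (ball w ρ) μ :=
      (ContinuousOn.integrableOn_compact (isCompact_closedBall w ρ)
        (Continuous.continuousOn (by fun_prop))).mono_set ball_subset_closedBall
    have i2 : IntegrableOn (fun _ : E => a * t ^ (-((d : ℝ) / p))) (ball w ρ) μ :=
      integrableOn_const measure_ball_lt_top.ne
    have h2 := setIntegral_mono i0 (i2.add (i1.const_mul ((a * t ^ (-((d : ℝ) / p))) ^ (1 - p))))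
      (fun z => young p _ _ hp1 ha' (norm_nonneg _))
    refine h2.trans ?_
    simp only [Pi.add_apply]
    rw [integral_add i2 (i1.const_mul _), setIntegral_const, smul_eq_mul, integral_const_mul]
    have h3 := scal μ _ hGi (fun _ => by positivity) y t ht0 _ B measurableSet_ball hB (hDB t ht)
    rw [← hd] at h3
    have h4 : (a * t ^ (-((d : ℝ) / p))) ^ (1 - p) * (t ^ d)⁻¹ = t ^ (-((d : ℝ) / p)) * a ^ (1 - p) := by
      rw [Real.mul_rpow ha.le (by positivity), ← Real.rpow_mul ht0.le, ← Real.rpow_natCast,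
        ← Real.rpow_neg ht0.le, mul_assoc, ← Real.rpow_add ht0, mul_comm]
      congr 2
      field_simp
      ring
    have h5 : 0 ≤ (a * t ^ (-((d : ℝ) / p))) ^ (1 - p) := by positivity
    have h6 := mul_le_mul_of_nonneg_left h3 h5
    rw [← mul_assoc, h4] at h6
    rw [hK, mul_add, ← mul_assoc (t ^ _) (a ^ (1 - p))]
    exact add_le_add (le_of_eq (by ring)) h6
  have hrp : IntegrableOn (fun t : ℝ => t ^ (-((d : ℝ) / p)) * K) (Ioc (0:ℝ) 1) :=
    ((intervalIntegrable_iff_integrableOn_Ioc_of_le zero_le_one).1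
      (intervalIntegral.intervalIntegrable_rpow' hdp)).mul_const K
  have h7 : ∫ t in Ioc (0:ℝ) 1, t ^ (-((d : ℝ) / p)) * K = 1 / (-((d : ℝ) / p) + 1) * K := by
    rw [integral_mul_const, ← intervalIntegral.integral_of_le zero_le_one, integral_rpow (Or.inl hdp)]
    rw [Real.one_rpow, Real.zero_rpow (by linarith), sub_zero]
  calc ∫ z in ball w ρ, |ψ z| ∂μ
      ≤ ∫ z in ball w ρ, 2 * ρ * (∫ t in Ioc (0:ℝ) 1, ‖fderiv ℝ ψ (y + t • (z - y))‖) ∂μ := by
        refine setIntegral_mono_on (hψ.continuous.abs.integrable_of_hasCompactSupport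
          hcs.abs).integrableOn (hprod.integral_prod_left.const_mul _) measurableSet_ball fun z hz => ?_
        refine (seg ψ hψ y z hy).trans ?_
        have : ‖z - y‖ ≤ 2 * ρ := by
          have h := mem_ball_iff_norm.1 hz
          calc ‖z - y‖ = ‖(z - w) + (w - y)‖ := by congr 1; abel
            _ ≤ ‖z - w‖ + ‖w - y‖ := norm_add_le _ _
            _ ≤ _ := by linarith
        exact mul_le_mul_of_nonneg_right this (integral_nonneg fun _ => norm_nonneg _)
    _ = 2 * ρ * ∫ t in Ioc (0:ℝ) 1, ∫ z in ball w ρ, ‖fderiv ℝ ψ (y + t • (z - y))‖ ∂μ := by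
        rw [integral_const_mul, integral_integral_swap hprod]
    _ ≤ 2 * ρ * ∫ t in Ioc (0:ℝ) 1, t ^ (-((d : ℝ) / p)) * K := by
        refine mul_le_mul_of_nonneg_left ?_ (by positivity)
        exact setIntegral_mono_on hprod.integral_prod_right hrp measurableSet_Ioc h1
    _ = _ := by rw [h7]

end Pool.Agent.H.MP_9e511b_an
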