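import Pool.Agent.H.MP_9e511b_an.A

set_option autoImplicit false
open MeasureTheory Set Metric Filter Topology

namespace Pool.Agent.H.MP_9e511b_an

variable {E : Type} [NormedAddCommGroup E] [NormedSpace ℝ E] [FiniteDimensional ℝ E]
  [MeasurableSpace E] [BorelSpace E]

lemma bern (p s : ℝ) (hp : 1 ≤ p) (hs : 0 ≤ s) : 0 ≤ s ^ p - 1 - p * (s - 1) := by
  have := one_add_mul_self_le_rpow_one_add (s := s - 1) (by linarith) hp
  rw [add_sub_cancel] at this
  linarith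

lemma eps (d : ℕ) (p C c : ℝ) (hp : (d : ℝ) < p) (hC : 0 ≤ C) (hc : 0 < c) :
    ∃ ε : ℝ, 0 < ε ∧ ε ≤ 1 ∧ C * ε ^ p ≤ c * ε ^ d := by
  have h1 : Tendsto (fun ε : ℝ => C * ε ^ (p - d)) (𝓝[>] 0) (𝓝 0) := by
    have : ContinuousAt (fun ε : ℝ => C * ε ^ (p - d)) 0 :=
      continuousAt_const.mul (Real.continuousAt_rpow_const 0 _ (Or.inr (by linarith)))
    have h := this.tendsto
    rw [Real.zero_rpow (by linarith), mul_zero] at h
    exact h.mono_left nhdsWithin_le_nhds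
  have h2 : ∀ᶠ ε : ℝ in 𝓝[>] 0, ε ∈ Ioo (0:ℝ) 1 := Ioo_mem_nhdsGT one_pos
  obtain ⟨ε, h3, h4⟩ := ((h1.eventually (gt_mem_nhds hc)).and h2).exists
  refine ⟨ε, h4.1, h4.2.le, ?_⟩
  have : ε ^ p = ε ^ (p - d) * ε ^ d := by
    rw [← Real.rpow_natCast, ← Real.rpow_add h4.1]; congr 1; ring
  rw [this, ← mul_assoc]
  have := h4.1
  exact mul_le_mul_of_nonneg_right h3.le (by positivity)

lemma core [Nontrivial E] (μ : Measure E) [μ.IsAddHaarMeasure] (p : ℝ)
    (hp : (Module.finrank ℝ E : ℝ) < p) (K : ℝ) (hK : 0 ≤ K) :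
    ∃ κ : ℝ, 0 < κ ∧ ∀ Ω : Set E, IsOpen Ω → Bornology.IsBounded Ω → ∀ ψ : E → ℝ,
      ContDiff ℝ 1 ψ → HasCompactSupport ψ → tsupport ψ ⊆ Ω → ∀ M : ℝ, 0 ≤ M →
      (∀ x ∈ Ω, infDist x Ωᶜ ^ p ≤ M) → M * ∫ z, ‖fderiv ℝ ψ z‖ ^ p ∂μ ≤ K * μ.real Ω →
      ∫ z, |ψ z| ∂μ = μ.real Ω → (1 + κ) * μ.real Ω ≤ ∫ z, |ψ z| ^ p ∂μ := by
  obtain ⟨d, hd⟩ : ∃ d, d = Module.finrank ℝ E := ⟨_, rfl⟩
  have hd1 : (1 : ℝ) ≤ d := by
    have : 0 < Module.finrank ℝ E := Module.finrank_pos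
    rw [← hd] at this
    exact_mod_cast this
  have hp' := hp
  rw [← hd] at hp'
  have hp1 : 1 < p := by linarith
  have hp0 : 0 < p := by linarith
  obtain ⟨q, hq⟩ : ∃ q, q = 1 / (-((d : ℝ) / p) + 1) := ⟨_, rfl⟩
  have hq0 : 0 < q := by
    have : (d : ℝ) / p < 1 := (div_lt_one hp0).2 hp'
    rw [hq]; exact one_div_pos.2 (by linarith)
  obtain ⟨η, hη⟩ : ∃ η, η = (p - 1) / (4 * p * q) := ⟨_, rfl⟩
  have hη0 : 0 < η := by rw [hη]; exact div_pos (by linarith) (by positivity)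
  obtain ⟨ε, hε0, hε1, hε⟩ := eps d p (2 * p * q * η ^ (1 - p) * K) ((p - 1) / 4 / 4 ^ d) hp'
    (by positivity) (div_pos (by linarith) (by positivity))
  refine ⟨(p - 1) / 4 / 4 ^ d * ε ^ d, mul_pos (div_pos (by linarith) (by positivity)) (by positivity), ?_⟩
  intro Ω hΩ hb ψ hψ hcs hs M hM hδ hEn hA
  have hfin : μ Ω ≠ ⊤ := hb.measure_lt_top.ne
  have hne : (Ωᶜ).Nonempty := by
    rw [nonempty_compl]
    rintro rfl
    exact NormedSpace.unbounded_univ ℝ E hb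
  have hc : Continuous (fderiv ℝ ψ) := hψ.continuous_fderiv (by norm_num)
  have hGc : Continuous fun z => ‖fderiv ℝ ψ z‖ ^ p := hc.norm.rpow_const fun _ => Or.inr hp0.le
  have hGs : HasCompactSupport fun z => ‖fderiv ℝ ψ z‖ ^ p :=
    (hcs.fderiv ℝ).comp_left (g := fun L => ‖L‖ ^ p) (by simp [hp0.ne'])
  have hGi : Integrable (fun z => ‖fderiv ℝ ψ z‖ ^ p) μ := hGc.integrable_of_hasCompactSupport hGs
  have hAi : Integrable (fun z => |ψ z|) μ := hψ.continuous.abs.integrable_of_hasCompactSupport hcs.abs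
  have hPi : Integrable (fun z => |ψ z| ^ p) μ :=
    (hψ.continuous.abs.rpow_const fun _ => Or.inr hp0.le).integrable_of_hasCompactSupport
      (hcs.comp_left (g := fun s => |s| ^ p) (by simp [hp0.ne']))
  obtain ⟨C, hC⟩ : ∃ C, C = 2 * p * q * η ^ (1 - p) * ε ^ p * M := ⟨_, rfl⟩
  have hC0 : 0 ≤ C := by rw [hC]; positivity
  have hhi : ∀ s : Set E, μ s ≠ ⊤ → IntegrableOn (fun z => |ψ z| ^ p - 1 - p * (|ψ z| - 1)) s μ := by
    intro s hs
    exact (hPi.integrableOn.sub (integrableOn_const hs)).sub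
      ((hAi.integrableOn.sub (integrableOn_const hs)).const_mul p)
  have hHi : ∀ s : Set E, μ s ≠ ⊤ →
      IntegrableOn (fun z => (|ψ z| ^ p - 1 - p * (|ψ z| - 1)) + C * ‖fderiv ℝ ψ z‖ ^ p) s μ :=
    fun s hs => (hhi s hs).add (hGi.integrableOn.const_mul C)
  have hpos : ∀ x ∈ Ω, 0 < infDist x Ωᶜ := fun x hx =>
    (hΩ.isClosed_compl.notMem_iff_infDist_pos hne).1 (by simpa using hx)
  have hv := vit μ Ω hfin _ (hHi Ω hfin)
    (fun z => add_nonneg (bern p _ hp1.le (abs_nonneg _)) (by positivity))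
    (fun x => infDist x Ωᶜ) (max 1 M) hpos ?_ (fun x _ => ball_infDist_compl_subset)
    ((p - 1) / 2 * ε ^ d) (mul_pos (by linarith) (by positivity)) ?_
  · rw [← hd, integral_add (hhi Ω hfin) (hGi.integrableOn.const_mul C), integral_const_mul] at hv
    have e1 : ∫ z in Ω, (|ψ z| ^ p - 1 - p * (|ψ z| - 1)) ∂μ = ∫ z, |ψ z| ^ p ∂μ - μ.real Ω := by
      have i1 : IntegrableOn (fun z => |ψ z| ^ p - 1) Ω μ := hPi.integrableOn.sub (integrableOn_const hfin)
      have i2 : IntegrableOn (fun z => |ψ z| - 1) Ω μ := hAi.integrableOn.sub (integrableOn_const hfin)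
      have z1 : ∀ z, z ∉ Ω → ψ z = 0 := fun z hz => image_eq_zero_of_notMem_tsupport fun h => hz (hs h)
      rw [integral_sub i1 (i2.const_mul p), integral_const_mul,
        integral_sub hPi.integrableOn (integrableOn_const hfin),
        integral_sub hAi.integrableOn (integrableOn_const hfin),
        setIntegral_eq_integral_of_forall_compl_eq_zero (f := fun z => |ψ z| ^ p)
          (fun z hz => by simp [z1 z hz, hp0.ne']),
        setIntegral_eq_integral_of_forall_compl_eq_zero (f := fun z => |ψ z|)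
          (fun z hz => by simp [z1 z hz]), hA]
      simp
    have e2 : ∫ z in Ω, ‖fderiv ℝ ψ z‖ ^ p ∂μ ≤ ∫ z, ‖fderiv ℝ ψ z‖ ^ p ∂μ :=
      setIntegral_le_integral hGi (Eventually.of_forall fun _ => by positivity)
    rw [e1] at hv
    have hV : 0 ≤ μ.real Ω := measureReal_nonneg
    have e3 : C * ∫ z in Ω, ‖fderiv ℝ ψ z‖ ^ p ∂μ ≤ (p - 1) / 4 / 4 ^ d * ε ^ d * μ.real Ω := by
      calc C * ∫ z in Ω, ‖fderiv ℝ ψ z‖ ^ p ∂μ ≤ C * ∫ z, ‖fderiv ℝ ψ z‖ ^ p ∂μ := by gcongr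
        _ = 2 * p * q * η ^ (1 - p) * ε ^ p * (M * ∫ z, ‖fderiv ℝ ψ z‖ ^ p ∂μ) := by rw [hC]; ring
        _ ≤ 2 * p * q * η ^ (1 - p) * ε ^ p * (K * μ.real Ω) := by gcongr
        _ = (2 * p * q * η ^ (1 - p) * K * ε ^ p) * μ.real Ω := by ring
        _ ≤ _ := by gcongr
    have h4 : (0 : ℝ) < 4 ^ d := by positivity
    have e4 : (p - 1) / 2 * ε ^ d * μ.real Ω = 4 ^ d * (2 * ((p - 1) / 4 / 4 ^ d * ε ^ d * μ.real Ω)) := by
      field_simp
      ring
    rw [e4] at hv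
    have := le_of_mul_le_mul_left hv h4
    linarith
  · intro x hx
    rcases le_total (infDist x Ωᶜ) 1 with h | h
    · exact h.trans (le_max_left _ _)
    · exact ((Real.self_le_rpow_of_one_le h hp1.le).trans (hδ x hx)).trans (le_max_right _ _)
  · intro x hx
    obtain ⟨y, hy, hxy⟩ := hΩ.isClosed_compl.exists_infDist_eq_dist hne x
    have hδ0 := hpos x hx
    have hδx := hδ x hx
    obtain ⟨δ, hδd⟩ : ∃ δ, δ = infDist x Ωᶜ := ⟨_, rfl⟩
    rw [← hδd] at hxy hδ0 hδx ⊢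
    rw [dist_eq_norm] at hxy
    have hψy : ψ y = 0 := image_eq_zero_of_notMem_tsupport fun h => hy (hs h)
    have hDB : ∀ t ∈ Ioc (0:ℝ) 1, ∀ z ∈ ball (y + ε • (x - y)) (ε * δ), y + t • (z - y) ∈ ball x δ := by
      intro t ht z hz
      rw [mem_ball_iff_norm] at hz ⊢
      have e : y + t • (z - y) - x = t • (z - (y + ε • (x - y))) - (1 - t * ε) • (x - y) := by
        module
      have h1 : t * ε ≤ 1 := mul_le_one₀ ht.2 hε0.le hε1
      rw [e]
      refine (norm_sub_le _ _).trans_lt ?_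
      rw [norm_smul, norm_smul, Real.norm_of_nonneg ht.1.le, Real.norm_of_nonneg (by linarith), ← hxy]
      have := mul_lt_mul_of_pos_left hz ht.1
      nlinarith
    have hsub : ball (y + ε • (x - y)) (ε * δ) ⊆ ball x δ := fun z hz => by
      simpa using hDB 1 ⟨one_pos, le_rfl⟩ z hz
    have hsm := small μ p hp1.le hp ψ hψ hcs y (y + ε • (x - y)) (ε * δ) (by positivity) hψy
      (by rw [add_sub_cancel_left, norm_smul, Real.norm_of_nonneg hε0.le, ← hxy])
      (ball x δ) measurableSet_ball hDB (η / (ε * δ)) (by positivity)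
    rw [← hd, ← hq] at hsm
    have hD : μ.real (ball (y + ε • (x - y)) (ε * δ)) = ε ^ d * μ.real (ball x δ) := by
      rw [measureReal_def, measureReal_def, Measure.addHaar_ball_mul_of_pos μ _ hε0,
        Measure.addHaar_ball_center μ x, ENNReal.toReal_mul, ENNReal.toReal_ofReal (by positivity), ← hd]
    have bf : ∀ (a : E) (r : ℝ), μ (ball a r) ≠ ⊤ := fun _ _ => measure_ball_lt_top.ne
    rw [integral_add (hhi _ (bf _ _)) (hGi.integrableOn.const_mul C), integral_const_mul]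
    have f1 : ∫ z in ball (y + ε • (x - y)) (ε * δ), (|ψ z| ^ p - 1 - p * (|ψ z| - 1)) ∂μ ≤
        ∫ z in ball x δ, (|ψ z| ^ p - 1 - p * (|ψ z| - 1)) ∂μ :=
      setIntegral_mono_set (hhi _ (bf _ _))
        (Eventually.of_forall fun z => bern p _ hp1.le (abs_nonneg _)) (Eventually.of_forall hsub)
    have f2 : ∫ z in ball (y + ε • (x - y)) (ε * δ), ((p - 1) - p * |ψ z|) ∂μ ≤
        ∫ z in ball (y + ε • (x - y)) (ε * δ), (|ψ z| ^ p - 1 - p * (|ψ z| - 1)) ∂μ := by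
      refine setIntegral_mono ((integrableOn_const (bf _ _)).sub (hAi.integrableOn.const_mul p))
        (hhi _ (bf _ _)) fun z => ?_
      have : 0 ≤ |ψ z| ^ p := by positivity
      beta_reduce
      linarith
    have ic : IntegrableOn (fun _ : E => p - 1) (ball (y + ε • (x - y)) (ε * δ)) μ :=
      integrableOn_const (bf _ _)
    rw [integral_sub ic (hAi.integrableOn.const_mul p),
      setIntegral_const, smul_eq_mul, integral_const_mul] at f2
    obtain ⟨EB, hEB⟩ : ∃ EB, EB = ∫ z in ball x δ, ‖fderiv ℝ ψ z‖ ^ p ∂μ := ⟨_, rfl⟩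
    have hEB0 : 0 ≤ EB := hEB ▸ integral_nonneg fun _ => by positivity
    rw [← hEB] at hsm ⊢
    rw [hD] at hsm f2
    have hεδ : 0 < ε * δ := by positivity
    have g1 : 2 * (ε * δ) * (q * (η / (ε * δ) * (ε ^ d * μ.real (ball x δ)) + (η / (ε * δ)) ^ (1 - p) * EB))
        = 2 * q * η * (ε ^ d * μ.real (ball x δ)) + 2 * q * η ^ (1 - p) * ε ^ p * δ ^ p * EB := by
      have : (η / (ε * δ)) ^ (1 - p) * (ε * δ) = η ^ (1 - p) * (ε ^ p * δ ^ p) := by
        rw [Real.div_rpow hη0.le hεδ.le, ← Real.mul_rpow hε0.le hδ0.le, Real.rpow_sub hεδ, Real.rpow_one]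
        have : 0 < (ε * δ) ^ p := by positivity
        field_simp
      calc _ = 2 * q * (η / (ε * δ) * (ε * δ)) * (ε ^ d * μ.real (ball x δ)) +
            2 * q * ((η / (ε * δ)) ^ (1 - p) * (ε * δ)) * EB := by ring
        _ = _ := by rw [this, div_mul_cancel₀ _ hεδ.ne']; ring
    rw [g1] at hsm
    have g2 : 2 * p * q * η ^ (1 - p) * ε ^ p * δ ^ p * EB ≤ C * EB := by
      rw [hC]; gcongr
    have g3 : p * (2 * q * η) = (p - 1) / 2 := by rw [hη]; field_simp; ring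
    have g4 := mul_le_mul_of_nonneg_left hsm hp0.le
    rw [mul_add, ← mul_assoc, g3] at g4
    nlinarith

end Pool.Agent.H.MP_9e511b_an
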