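import Pool.Agent.H.MP_9e511b_an.B

set_option autoImplicit false
open MeasureTheory Set Metric Filter Topology

namespace Pool.Agent.H.MP_9e511b_an

variable {E : Type} [NormedAddCommGroup E] [NormedSpace ℝ E] [FiniteDimensional ℝ E]
  [MeasurableSpace E] [BorelSpace E]

lemma bump (μ : Measure E) [μ.IsAddHaarMeasure] (p : ℝ) (hp : 0 < p) :
    ∃ Λ : ℝ, 0 ≤ Λ ∧ ∀ (x : E) (r : ℝ), 0 < r → ∃ φ : E → ℝ, ContDiff ℝ (⊤ : ℕ∞) φ ∧
      HasCompactSupport φ ∧ tsupport φ ⊆ ball x r ∧ φ ≠ 0 ∧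
      (∫ z, ‖fderiv ℝ φ z‖ ^ p ∂μ) / (∫ z, |φ z| ^ p ∂μ) * r ^ p = Λ := by
  let b : ContDiffBump (0 : E) := ⟨1 / 4, 1 / 2, by norm_num, by norm_num⟩
  obtain ⟨f, hf⟩ : ∃ f : E → ℝ, f = b := ⟨_, rfl⟩
  have hfc : ContDiff ℝ (⊤ : ℕ∞) f := hf ▸ b.contDiff
  have hfs : tsupport f = closedBall 0 (1 / 2) := hf ▸ b.tsupport_eq
  have hf0 : f 0 = 1 := by rw [hf]; exact b.one_of_mem_closedBall (mem_closedBall_self (by norm_num [b]))
  refine ⟨(∫ z, ‖fderiv ℝ f z‖ ^ p ∂μ) / (∫ z, |f z| ^ p ∂μ),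
    div_nonneg (integral_nonneg fun _ => by positivity) (integral_nonneg fun _ => by positivity), ?_⟩
  intro x r hr
  have hsub : tsupport (fun z => f (r⁻¹ • (z - x))) ⊆ closedBall x (r / 2) := by
    refine closure_minimal (fun z hz => ?_) isClosed_closedBall
    have h1 : r⁻¹ • (z - x) ∈ tsupport f := subset_tsupport _ hz
    rw [hfs, mem_closedBall_zero_iff, norm_smul, Real.norm_of_nonneg (by positivity),
      inv_mul_le_iff₀ hr] at h1
    rw [mem_closedBall_iff_norm]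
    linarith
  refine ⟨fun z => f (r⁻¹ • (z - x)), hfc.comp (by fun_prop),
    (isCompact_closedBall x (r / 2)).of_isClosed_subset (isClosed_tsupport _) hsub,
    hsub.trans (closedBall_subset_ball (by linarith)), fun h => ?_, ?_⟩
  · have := congrFun h x
    simp [hf0] at this
  have key : ∀ K : E → ℝ, ∫ z, K (r⁻¹ • (z - x)) ∂μ = r ^ Module.finrank ℝ E * ∫ z, K z ∂μ := by
    intro K
    rw [integral_sub_right_eq_self (fun z => K (r⁻¹ • z)) x,
      Measure.integral_comp_smul μ K, inv_pow, inv_inv, abs_of_pos (by positivity), smul_eq_mul]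
  have hd : ∀ z, ‖fderiv ℝ (fun z => f (r⁻¹ • (z - x))) z‖ ^ p =
      (r ^ p)⁻¹ * ‖fderiv ℝ f (r⁻¹ • (z - x))‖ ^ p := by
    intro z
    have h1 : HasFDerivAt (fun z : E => r⁻¹ • (z - x)) (r⁻¹ • ContinuousLinearMap.id ℝ E) z :=
      ((hasFDerivAt_id z).sub_const x).const_smul r⁻¹
    have h2 := ((hfc.differentiable (by simp)) (r⁻¹ • (z - x))).hasFDerivAt.comp z h1
    have h3 : fderiv ℝ (fun z => f (r⁻¹ • (z - x))) z = r⁻¹ • fderiv ℝ f (r⁻¹ • (z - x)) := by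
      have := h2.fderiv
      rw [ContinuousLinearMap.comp_smul, ContinuousLinearMap.comp_id] at this
      exact this
    rw [h3, norm_smul, Real.norm_of_nonneg (by positivity), Real.mul_rpow (by positivity) (norm_nonneg _),
      Real.inv_rpow hr.le]
  simp only [hd]
  rw [integral_const_mul, key (fun z => ‖fderiv ℝ f z‖ ^ p), key (fun z => |f z| ^ p)]
  have : 0 < r ^ p := by positivity
  have : 0 < r ^ Module.finrank ℝ E := by positivity
  field_simp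

theorem main [Nontrivial E] (μ : Measure E) [μ.IsAddHaarMeasure] (p : ℝ)
    (hp : (Module.finrank ℝ E : ℝ) < p) :
    ∃ c : ℝ, c < 1 ∧ ∀ Ω : Set E, IsOpen Ω → Bornology.IsBounded Ω → Ω.Nonempty →
      ∀ ψ : E → ℝ, ContDiff ℝ (⊤ : ℕ∞) ψ → HasCompactSupport ψ → tsupport ψ ⊆ Ω → ψ ≠ 0 →
      (⨅ φ : {φ : E → ℝ // ContDiff ℝ (⊤ : ℕ∞) φ ∧ HasCompactSupport φ ∧ tsupport φ ⊆ Ω ∧ φ ≠ 0},
        (∫ x, ‖fderiv ℝ φ.1 x‖ ^ p ∂μ) / (∫ x, |φ.1 x| ^ p ∂μ)) *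
        ((∫ x, |ψ x| ∂μ) ^ p / (∫ x, ‖fderiv ℝ ψ x‖ ^ p ∂μ)) ≤ c * ((μ Ω).toReal) ^ (p - 1) := by
  have hp0 : 0 < p := lt_of_le_of_lt (Nat.cast_nonneg _) hp
  obtain ⟨Λ, hΛ, hb⟩ := bump μ p hp0
  obtain ⟨κ, hκ, hcore⟩ := core μ p hp (2 * Λ) (by positivity)
  refine ⟨max (1 / 2) (1 / (1 + κ)), max_lt (by norm_num) ((div_lt_one (by linarith)).2 (by linarith)), ?_⟩
  intro Ω hΩ hbd hne ψ hψ hcs hs hψ0
  obtain ⟨l, hl⟩ : ∃ l, l = ⨅ φ : {φ : E → ℝ // ContDiff ℝ (⊤ : ℕ∞) φ ∧ HasCompactSupport φ ∧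
      tsupport φ ⊆ Ω ∧ φ ≠ 0}, (∫ x, ‖fderiv ℝ φ.1 x‖ ^ p ∂μ) / (∫ x, |φ.1 x| ^ p ∂μ) := ⟨_, rfl⟩
  have hle : ∀ φ : E → ℝ, ContDiff ℝ (⊤ : ℕ∞) φ → HasCompactSupport φ → tsupport φ ⊆ Ω → φ ≠ 0 →
      l ≤ (∫ x, ‖fderiv ℝ φ x‖ ^ p ∂μ) / (∫ x, |φ x| ^ p ∂μ) := by
    intro φ h1 h2 h3 h4
    rw [hl]
    refine ciInf_le_of_le ⟨0, ?_⟩ ⟨φ, h1, h2, h3, h4⟩ le_rfl
    rintro _ ⟨φ, rfl⟩
    exact div_nonneg (integral_nonneg fun _ => by positivity) (integral_nonneg fun _ => by positivity)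
  rw [← hl, ← measureReal_def]
  obtain ⟨V, hV⟩ : ∃ V, V = μ.real Ω := ⟨_, rfl⟩
  have hV0 : 0 < V := by
    rw [hV, measureReal_def]
    exact ENNReal.toReal_pos (hΩ.measure_pos μ hne).ne' hbd.measure_lt_top.ne
  rw [← hV]
  have hc0 : (1 / 2 : ℝ) ≤ max (1 / 2) (1 / (1 + κ)) := le_max_left _ _
  have hVp : 0 < V ^ (p - 1) := by positivity
  obtain ⟨A, hA⟩ : ∃ A, A = ∫ x, |ψ x| ∂μ := ⟨_, rfl⟩
  obtain ⟨En, hEn⟩ : ∃ En, En = ∫ x, ‖fderiv ℝ ψ x‖ ^ p ∂μ := ⟨_, rfl⟩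
  have hA0 : 0 < A := by
    rw [hA]
    obtain ⟨x, hx⟩ := Function.ne_iff.1 hψ0
    exact hψ.continuous.abs.integral_pos_of_hasCompactSupport_nonneg_nonzero hcs.abs
      (fun _ => abs_nonneg _) (x := x) (by simpa using hx)
  have hEn0 : 0 ≤ En := hEn ▸ integral_nonneg fun _ => by positivity
  rw [← hA, ← hEn]
  by_contra hcon
  push Not at hcon
  have hl0 : 0 < l := by
    by_contra h
    push Not at h
    have : l * (A ^ p / En) ≤ 0 := mul_nonpos_of_nonpos_of_nonneg h (by positivity)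
    nlinarith
  have hEn1 : 0 < En := by
    rcases hEn0.eq_or_lt with h | h
    · rw [← h, div_zero, mul_zero] at hcon
      nlinarith
    · exact h
  obtain ⟨m, hm⟩ : ∃ m, m = V / A := ⟨_, rfl⟩
  have hm0 : 0 < m := by rw [hm]; positivity
  have hmA : m * A = V := by rw [hm]; field_simp
  have hmp : m ^ p * A ^ p = V ^ (p - 1) * V := by
    rw [← Real.mul_rpow hm0.le hA0.le, hmA, Real.rpow_sub_one hV0.ne']; field_simp
  have hd : ∀ z, ‖fderiv ℝ (fun z => m * ψ z) z‖ ^ p = m ^ p * ‖fderiv ℝ ψ z‖ ^ p := by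
    intro z
    rw [fderiv_const_mul (hψ.differentiable (by simp) z), norm_smul, Real.norm_of_nonneg hm0.le,
      Real.mul_rpow hm0.le (norm_nonneg _)]
  have hmp0 : 0 < m ^ p := by positivity
  have h := hcore Ω hΩ hbd (fun z => m * ψ z) (contDiff_const.mul (hψ.of_le (by simp)))
    hcs.mul_left ((tsupport_mul_subset_right).trans hs) (Λ / l) (by positivity) ?_ ?_ ?_
  · simp only [abs_mul, abs_of_pos hm0, Real.mul_rpow hm0.le (abs_nonneg _)] at h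
    rw [integral_const_mul, ← hV] at h
    have h1 := hle ψ hψ hcs hs hψ0
    rw [← hEn] at h1
    obtain ⟨P, hP⟩ : ∃ P, P = ∫ x, |ψ x| ^ p ∂μ := ⟨_, rfl⟩
    rw [← hP] at h h1
    have hP0 : 0 < P := by
      have : 0 < m ^ p * P := lt_of_lt_of_le (by positivity) h
      exact (mul_pos_iff_of_pos_left hmp0).1 this
    have h2 : l * (A ^ p / En) ≤ A ^ p / P := by
      calc l * (A ^ p / En) ≤ En / P * (A ^ p / En) := by gcongr
        _ = _ := by field_simp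
    have h3 : A ^ p / P ≤ 1 / (1 + κ) * V ^ (p - 1) := by
      rw [div_le_iff₀ hP0, one_div, mul_assoc, le_inv_mul_iff₀ (by linarith)]
      refine le_of_mul_le_mul_left ?_ hmp0
      calc m ^ p * ((1 + κ) * A ^ p) = V ^ (p - 1) * ((1 + κ) * V) := by
            rw [mul_left_comm, hmp]; ring
        _ ≤ V ^ (p - 1) * (m ^ p * P) := by gcongr
        _ = _ := by ring
    have h4 : 1 / (1 + κ) * V ^ (p - 1) ≤ max (1 / 2) (1 / (1 + κ)) * V ^ (p - 1) := by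
      gcongr; exact le_max_right _ _
    linarith
  · intro x hx
    have hne' : (Ωᶜ).Nonempty := by
      rw [nonempty_compl]
      rintro rfl
      exact NormedSpace.unbounded_univ ℝ E hbd
    have hpos : 0 < infDist x Ωᶜ := (hΩ.isClosed_compl.notMem_iff_infDist_pos hne').1 (by simpa using hx)
    obtain ⟨φ, h1, h2, h3, h4, h5⟩ := hb x _ hpos
    have h6 := hle φ h1 h2 (h3.trans ball_infDist_compl_subset) h4
    rw [le_div_iff₀ hl0, ← h5, mul_comm]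
    gcongr
  · simp only [hd]
    rw [integral_const_mul, ← hEn, ← hV]
    have h1 : 1 / 2 * V ^ (p - 1) < l * (A ^ p / En) := lt_of_le_of_lt (by gcongr) hcon
    rw [← mul_div_assoc, lt_div_iff₀ hEn1] at h1
    have h2 : m ^ p * En ≤ 2 * l * V := by
      refine le_of_mul_le_mul_left ?_ hVp
      have h3 := mul_lt_mul_of_pos_left h1 hmp0
      have h4 : m ^ p * (l * A ^ p) = l * (V ^ (p - 1) * V) := by rw [← hmp]; ring
      nlinarith
    calc Λ / l * (m ^ p * En) ≤ Λ / l * (2 * l * V) := by gcongr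
      _ = _ := by field_simp
  · simp only [abs_mul, abs_of_pos hm0]
    rw [integral_const_mul, ← hA, hmA, hV]

end Pool.Agent.H.MP_9e511b_an
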